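import Pool.Agent.H352Z.Moeb.Defs
import Pool.Agent.Helper834.EC.Dim1

set_option autoImplicit false

namespace Pool.Agent.H352Z.Moeb

open scoped ContDiff Topology
open MvPolynomial

theorem trdeg_quot_le {A : Type} [CommRing A] [IsDomain A] [Algebra ℝ A] (g : Fin 2 → A)
    (c : Fin 4 → A)
    (hc : ∀ i, IsAlgebraic (aeval g : MvPolynomial (Fin 2) ℝ →ₐ[ℝ] A).range (c i)) :
    Algebra.trdeg ℝ (MvPolynomial (Fin 4) ℝ ⧸
      RingHom.ker (aeval c : MvPolynomial (Fin 4) ℝ →ₐ[ℝ] A)) ≤ 2 := by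
  set R : Subalgebra ℝ A := (aeval g : MvPolynomial (Fin 2) ℝ →ₐ[ℝ] A).range with hR
  let C : Subalgebra R A := Subalgebra.algebraicClosure R A
  have h1 : Algebra.trdeg ℝ R ≤ 2 := by
    have := trdeg_le_of_surjective (R := ℝ)
      (aeval g : MvPolynomial (Fin 2) ℝ →ₐ[ℝ] A).rangeRestrict
      (AlgHom.rangeRestrict_surjective _)
    rw [MvPolynomial.trdeg_of_isDomain] at this
    simpa using this
  have h2 : Algebra.trdeg R C = 0 := trdeg_eq_zero
  have h3 := trdeg_add_eq ℝ R (A := C)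
  have h4 : Algebra.trdeg ℝ C ≤ 2 := by rw [← h3, h2, add_zero]; exact h1
  let Φ : MvPolynomial (Fin 4) ℝ →ₐ[ℝ] C := aeval (fun i => (⟨c i, hc i⟩ : C))
  have hk : RingHom.ker (aeval c : MvPolynomial (Fin 4) ℝ →ₐ[ℝ] A) = RingHom.ker Φ := by
    have : (aeval c : MvPolynomial (Fin 4) ℝ →ₐ[ℝ] A)
        = ((C.val).restrictScalars ℝ).comp Φ := by
      ext i; simp [Φ]
    rw [this]
    ext q
    simp [RingHom.mem_ker]
  rw [hk]
  exact (trdeg_le_of_injective (Ideal.kerLiftAlg Φ) (Ideal.kerLiftAlg_injective Φ)).trans h4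

/-- Real analytic functions on the parameter plane. -/
def An : Subalgebra ℝ (ℝ × ℝ → ℝ) where
  carrier := {f | ContDiff ℝ ω f}
  mul_mem' {f g} hf hg := ContDiff.mul (show ContDiff ℝ ω f from hf) (show ContDiff ℝ ω g from hg)
  add_mem' {f g} hf hg := ContDiff.add (show ContDiff ℝ ω f from hf) (show ContDiff ℝ ω g from hg)
  algebraMap_mem' r := show ContDiff ℝ ω (fun _ : ℝ × ℝ => r) from contDiff_const

theorem an_mul_eq_zero {f g : ℝ × ℝ → ℝ} (hf : ContDiff ℝ ω f) (hg : ContDiff ℝ ω g)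
    (h : ∀ p, f p * g p = 0) : f = 0 ∨ g = 0 := by
  by_cases h0 : f = 0
  · exact Or.inl h0
  · right
    obtain ⟨p, hp⟩ := Function.ne_iff.mp h0
    have hev : g =ᶠ[𝓝 p] 0 := by
      filter_upwards [hf.continuous.continuousAt.eventually_ne hp] with q hq
      exact (mul_eq_zero.mp (h q)).resolve_left hq
    have := (contDiff_omega_iff_analyticOnNhd.mp hg).eqOn_zero_of_preconnected_of_eventuallyEq_zero
      isPreconnected_univ (Set.mem_univ p) hev
    funext q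
    exact this (Set.mem_univ q)

instance : NoZeroDivisors An where
  eq_zero_or_eq_zero_of_mul_eq_zero {a b} h := by
    have := an_mul_eq_zero a.2 b.2 (fun p => congrFun (congrArg Subtype.val h) p)
    rcases this with h | h
    · exact Or.inl (Subtype.ext h)
    · exact Or.inr (Subtype.ext h)

instance : IsDomain An := NoZeroDivisors.to_isDomain _

noncomputable def gen : Fin 2 → An :=
  ![⟨fun p => Real.cos p.1, by show ContDiff ℝ ω _; fun_prop⟩,
    ⟨fun p => p.2, by show ContDiff ℝ ω _; fun_prop⟩]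

noncomputable def R0 : Subalgebra ℝ An := (aeval gen : MvPolynomial (Fin 2) ℝ →ₐ[ℝ] An).range

/-- Analytic functions that are algebraic over `cos φ` and `u`. -/
def Alg (f : ℝ × ℝ → ℝ) : Prop := ∃ h : f ∈ An, IsAlgebraic R0 (⟨f, h⟩ : An)

theorem Alg.an {f : ℝ × ℝ → ℝ} (h : Alg f) : ContDiff ℝ ω f := h.1

theorem Alg.add {f g : ℝ × ℝ → ℝ} (hf : Alg f) (hg : Alg g) : Alg (fun p => f p + g p) := by
  obtain ⟨h1, h2⟩ := hf; obtain ⟨h3, h4⟩ := hg
  exact ⟨An.add_mem h1 h3, h2.add h4⟩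

theorem Alg.mul {f g : ℝ × ℝ → ℝ} (hf : Alg f) (hg : Alg g) : Alg (fun p => f p * g p) := by
  obtain ⟨h1, h2⟩ := hf; obtain ⟨h3, h4⟩ := hg
  exact ⟨An.mul_mem h1 h3, h2.mul h4⟩

theorem Alg.sub {f g : ℝ × ℝ → ℝ} (hf : Alg f) (hg : Alg g) : Alg (fun p => f p - g p) := by
  obtain ⟨h1, h2⟩ := hf; obtain ⟨h3, h4⟩ := hg
  exact ⟨An.sub_mem h1 h3, h2.sub h4⟩

theorem Alg.neg {f : ℝ × ℝ → ℝ} (hf : Alg f) : Alg (fun p => -f p) := by
  obtain ⟨h1, h2⟩ := hf
  exact ⟨An.neg_mem h1, h2.neg⟩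

theorem Alg.pow {f : ℝ × ℝ → ℝ} (hf : Alg f) (n : ℕ) : Alg (fun p => f p ^ n) := by
  obtain ⟨h1, h2⟩ := hf
  exact ⟨An.pow_mem h1 n, h2.pow n⟩

theorem Alg.const (r : ℝ) : Alg (fun _ => r) := by
  refine ⟨An.algebraMap_mem r, ?_⟩
  exact isAlgebraic_algebraMap (A := An) (algebraMap ℝ R0 r)

theorem Alg.cos : Alg (fun p => Real.cos p.1) :=
  ⟨(gen 0).2, isAlgebraic_algebraMap (A := An) (⟨gen 0, ⟨X 0, by simp⟩⟩ : R0)⟩

theorem Alg.snd : Alg (fun p => p.2) :=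
  ⟨(gen 1).2, isAlgebraic_algebraMap (A := An) (⟨gen 1, ⟨X 1, by simp⟩⟩ : R0)⟩

theorem Alg.of_sq {f g : ℝ × ℝ → ℝ} (hf : ContDiff ℝ ω f) (hg : Alg g)
    (h : ∀ p, f p ^ 2 = g p) : Alg f := by
  obtain ⟨h1, h2⟩ := hg
  refine ⟨hf, IsAlgebraic.of_pow (n := 2) two_pos ?_⟩
  convert h2 using 1
  exact Subtype.ext (funext h)

theorem Alg.of_mul {f g k : ℝ × ℝ → ℝ} (hf : ContDiff ℝ ω f) (hg : Alg g) (hk : Alg k)
    (hg0 : g (0, 0) ≠ 0) (h : ∀ p, g p * f p = k p) : Alg f := by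
  obtain ⟨h1, h2⟩ := hg; obtain ⟨h3, h4⟩ := hk
  refine ⟨hf, IsAlgebraic.of_mul (y := (⟨g, h1⟩ : An)) ?_ h2 ?_⟩
  · apply mem_nonZeroDivisors_of_ne_zero
    intro h0
    exact hg0 (congrFun (congrArg Subtype.val h0) (0, 0))
  · have : (⟨g, h1⟩ : An) * ⟨f, hf⟩ = ⟨k, h3⟩ := Subtype.ext (funext h)
    rw [this]; exact h4

theorem Alg.sin : Alg (fun p => Real.sin p.1) :=
  Alg.of_sq (by fun_prop) ((Alg.const 1).sub (Alg.cos.pow 2)) (fun p => Real.sin_sq p.1)

theorem exists_zeroSet (G : ℝ × ℝ → Fin 4 → ℝ) (hG : ∀ i, Alg (fun p => G p i))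
    {r : ℝ} (hr : 0 < r)
    (hbox : ∀ x ∈ Set.Icc (-r) r, ∀ y ∈ Set.Ici (0 : ℝ), ∃ p, G p 0 = x ∧ G p 3 = y) :
    ∃ S : Finset (MvPolynomial (Fin 4) ℝ), (∀ p, G p ∈ zeroSet S) ∧ algDim (zeroSet S) = 2 := by
  classical
  let c : Fin 4 → An := fun i => ⟨fun p => G p i, (hG i).1⟩
  let Φ : MvPolynomial (Fin 4) ℝ →ₐ[ℝ] An := aeval c
  have hΦ : ∀ (q : MvPolynomial (Fin 4) ℝ) (p : ℝ × ℝ),
      ((Φ q : An) : ℝ × ℝ → ℝ) p = eval (G p) q := by
    intro q p
    induction q using MvPolynomial.induction_on with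
    | C a => simp [Φ]
    | add a b ha hb => simp only [map_add, ← ha, ← hb]; rfl
    | mul_X a i ha => simp only [map_mul, ← ha, eval_X, Φ, aeval_X]; rfl
  have hker : ∀ q, q ∈ RingHom.ker Φ ↔ ∀ p, eval (G p) q = 0 := by
    intro q
    rw [RingHom.mem_ker]
    constructor
    · intro h p
      rw [← hΦ, h]; rfl
    · intro h
      exact Subtype.ext (funext fun p => by rw [hΦ, h]; rfl)
  obtain ⟨S, hS⟩ := (isNoetherianRing_iff_ideal_fg _).mp
    (inferInstance : IsNoetherianRing (MvPolynomial (Fin 4) ℝ)) (RingHom.ker Φ)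
  have hmem : ∀ p, G p ∈ zeroSet S := fun p q hq =>
    (hker q).mp (hS ▸ Ideal.subset_span hq) p
  have hI : vanishingIdeal ℝ (zeroSet S) = RingHom.ker Φ := by
    apply le_antisymm
    · intro q hq
      rw [hker]
      intro p
      simpa using hq (G p) (hmem p)
    · rw [← hS, Ideal.span_le]
      intro q hq x hx
      simpa using hx q hq
  refine ⟨S, hmem, ?_⟩
  unfold algDim
  rw [hI]
  have hp : (RingHom.ker Φ).IsPrime := RingHom.ker_isPrime _
  obtain ⟨s, h1, h2⟩ := Pool.Agent.Helper834.EC.exists_ringKrullDim_eq_trdeg ℝ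
    (MvPolynomial (Fin 4) ℝ ⧸ RingHom.ker Φ)
  have hle : Algebra.trdeg ℝ (MvPolynomial (Fin 4) ℝ ⧸ RingHom.ker Φ) ≤ 2 :=
    trdeg_quot_le gen c (fun i => (hG i).2)
  have hge : 2 ≤ Algebra.trdeg ℝ (MvPolynomial (Fin 4) ℝ ⧸ RingHom.ker Φ) := by
    let j : Fin 2 → Fin 4 := ![0, 3]
    have hai : AlgebraicIndependent ℝ
        (fun i => Ideal.Quotient.mkₐ ℝ (RingHom.ker Φ) (X (j i))) := by
      rw [algebraicIndependent_iff]
      intro q hq
      have h3 : aeval (fun i => Ideal.Quotient.mkₐ ℝ (RingHom.ker Φ) (X (j i))) q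
          = Ideal.Quotient.mkₐ ℝ (RingHom.ker Φ) (rename j q) := by
        have : (aeval (fun i => Ideal.Quotient.mkₐ ℝ (RingHom.ker Φ) (X (j i))) :
            MvPolynomial (Fin 2) ℝ →ₐ[ℝ] _)
            = (Ideal.Quotient.mkₐ ℝ (RingHom.ker Φ)).comp (rename j) := by
          ext i; simp
        rw [this]; rfl
      rw [h3, Ideal.Quotient.mkₐ_eq_mk, Ideal.Quotient.eq_zero_iff_mem, hker] at hq
      apply MvPolynomial.funext_set (s := ![Set.Icc (-r) r, Set.Ici 0])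
      · intro i
        fin_cases i
        · exact Set.Icc_infinite (by linarith)
        · exact Set.Ici_infinite 0
      · intro x hx
        obtain ⟨p, hp0, hp3⟩ := hbox (x 0) (hx 0 trivial) (x 1) (hx 1 trivial)
        have := hq p
        rw [eval_rename] at this
        have h4 : G p ∘ j = x := by
          funext i; fin_cases i
          · exact hp0
          · exact hp3
        rw [h4] at this
        simpa using this
    have := hai.lift_cardinalMk_le_trdeg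
    simpa using this
  have : (s : Cardinal) = 2 := by rw [← h2]; exact le_antisymm hle hge
  have hs : s = 2 := by exact_mod_cast this
  rw [h1, hs]; rfl

end Pool.Agent.H352Z.Moeb
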