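import Mathlib

set_option autoImplicit false

namespace Pool.Agent.H352Z.Moeb

open scoped ContDiff

/-- The Euclidean plane. The coordinates of a point `x` are `v = x 0` and `t = x 1`. -/
abbrev Plane : Type := EuclideanSpace ℝ (Fin 2)

/-- Euclidean 4-space. -/
abbrev E4 : Type := EuclideanSpace ℝ (Fin 4)

/-- The glide reflection `(v, t) ↦ (v + w, -t)` of the plane. -/
noncomputable def glide (w : ℝ) : Equiv.Perm Plane where
  toFun x := !₂[x 0 + w, -x 1]
  invFun x := !₂[x 0 - w, -x 1]
  left_inv x := by ext i; fin_cases i <;> simp
  right_inv x := by ext i; fin_cases i <;> simp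

/-- The complete flat Moebius band of width `w`: the quotient of the plane by the group
generated by the glide reflection `(v, t) ↦ (v + w, -t)`, with the quotient topology. -/
abbrev MoebiusBand (w : ℝ) : Type :=
  Quotient (MulAction.orbitRel (Subgroup.zpowers (glide w)) Plane)

/-- The covering projection from the plane to the band. -/
noncomputable def proj (w : ℝ) (x : Plane) : MoebiusBand w := Quotient.mk _ x

/-- A map `X` from the band to Euclidean 4-space is an isometric embedding: its lift to the
plane (through the covering projection, a local isometry and local diffeomorphism) is smooth,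
its differential preserves the length of every tangent vector (so `X` is an immersion pulling
the Euclidean metric back to the flat metric), and `X` is a homeomorphism onto its image. -/
structure IsIsometricEmbedding (w : ℝ) (X : MoebiusBand w → E4) : Prop where
  smooth : ContDiff ℝ ∞ (fun x => X (proj w x))
  isometric : ∀ x h : Plane, ‖fderiv ℝ (fun y => X (proj w y)) x h‖ = ‖h‖
  injective : Function.Injective X
  embedding : Topology.IsEmbedding X

/-- The common real zero set in `ℝ^4` of a finite set of real polynomials. -/
def zeroSet (S : Finset (MvPolynomial (Fin 4) ℝ)) : Set (Fin 4 → ℝ) :=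
  {x | ∀ p ∈ S, MvPolynomial.eval x p = 0}

/-- The dimension of a real algebraic set `Z`: the Krull dimension of its coordinate ring
`ℝ[x_1, ..., x_4] / I(Z)`, with `I(Z)` the ideal of all real polynomials vanishing on `Z`. -/
noncomputable def algDim (Z : Set (Fin 4 → ℝ)) : WithBot ℕ∞ :=
  ringKrullDim (MvPolynomial (Fin 4) ℝ ⧸ MvPolynomial.vanishingIdeal ℝ Z)

end Pool.Agent.H352Z.Moeb
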