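import Pool.Agent.H352Z.Moeb.Tools

set_option autoImplicit false

namespace Pool.Agent.H352Z.Moeb

open scoped ContDiff Topology RealInnerProductSpace
open Real Set Filter

noncomputable def e0 : Plane := !₂[1, 0]
noncomputable def e1 : Plane := !₂[0, 1]

theorem e_comb (x y : ℝ) : x • e0 + y • e1 = !₂[x, y] := by
  ext i; fin_cases i <;> simp [e0, e1]

theorem norm_sq_pl (x y : ℝ) : ‖(!₂[x, y] : Plane)‖ ^ 2 = x ^ 2 + y ^ 2 := by
  rw [EuclideanSpace.norm_sq_eq]
  simp [Fin.sum_univ_two]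

theorem norm_comb {T D e : E4} {η : ℝ} (hT : ⟪T, T⟫ = 1) (hTD : ⟪T, D⟫ = η)
    (hD : ⟪D, D⟫ = 1 + η ^ 2) (hTe : ⟪T, e⟫ = 0) (hDe : ⟪D, e⟫ = 0) (he : ⟪e, e⟫ = 1)
    (x y z : ℝ) : ‖x • T + y • D + z • e‖ ^ 2 = (x + y * η) ^ 2 + y ^ 2 + z ^ 2 := by
  rw [← real_inner_self_eq_norm_sq]
  simp only [inner_add_left, inner_add_right, real_inner_smul_left, real_inner_smul_right,
    real_inner_comm T D, real_inner_comm T e, real_inner_comm D e, hT, hTD, hD, hTe, hDe, he]
  ring

theorem frame (w : ℝ) (γ D T : ℝ → E4) (a η : ℝ → ℝ) (e : E4)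
    (sγ : ContDiff ℝ ∞ γ) (sD : ContDiff ℝ ∞ D) (sa : ContDiff ℝ ∞ a) (sη : ContDiff ℝ ∞ η)
    (dγ : ∀ x, HasDerivAt γ (a x • T x) x) (dD : ∀ x, HasDerivAt D (deriv η x • T x) x)
    (hT : ∀ x, ⟪T x, T x⟫ = 1) (hTD : ∀ x, ⟪T x, D x⟫ = η x)
    (hD : ∀ x, ⟪D x, D x⟫ = 1 + η x ^ 2) (hTe : ∀ x, ⟪T x, e⟫ = 0) (hDe : ∀ x, ⟪D x, e⟫ = 0)
    (hγe : ∀ x, ⟪γ x, e⟫ = 0) (he : ⟪e, e⟫ = 1) (ha : ∀ x, 0 < a x)
    (pa : ∀ x, a (x + π) = a x) (pγ : ∀ x, γ (x + π) = γ x) (pD : ∀ x, D (x + π) = -D x)
    (pη : ∀ x, η (x + π) = -η x) (hw : ∫ x in (0 : ℝ)..π, a x = w)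
    (hinj : ∀ x y, |x - y| ≤ π / 2 → γ x = γ y → x = y) :
    ∃ b : ℝ, ∃ X : MoebiusBand w → E4, IsIsometricEmbedding w X ∧
      ∀ x, ∃ p : ℝ × ℝ, X x = γ p.1 + om b p.2 • D p.1 + p.2 ^ 2 • e := by
  -- the thin developable band
  let m : ℝ × ℝ → E4 := fun p => γ p.1 + p.2 • D p.1
  have sm : ContDiff ℝ ∞ m := by fun_prop
  obtain ⟨b0, hb0, hthin⟩ := thin sm (fun x => by
    rw [injective_iff_map_eq_zero]
    intro k hk
    rw [fderiv_prod_apply (sm.differentiable (by simp) _) (A := a x • T x) (B := D x)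
      (by simpa [m] using dγ x)
      (by simpa [m] using ((hasDerivAt_id (0 : ℝ)).smul_const (D x)).const_add (γ x))] at hk
    have h1 := norm_comb (hT x) (hTD x) (hD x) (hTe x) (hDe x) he (k.1 * a x) k.2 0
    rw [zero_smul, add_zero, mul_smul, hk] at h1
    simp only [norm_zero] at h1
    have h2 : k.2 = 0 := by nlinarith [sq_nonneg (k.1 * a x + k.2 * η x), sq_nonneg k.2]
    have h3 : k.1 * a x = 0 := by rw [h2] at h1; nlinarith [sq_nonneg (k.1 * a x)]
    exact Prod.ext ((mul_eq_zero.mp h3).resolve_right (ha x).ne') h2)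
    (fun x y hxy h => hinj x y hxy (by simpa [m] using h))
  have sη' : ContDiff ℝ ∞ (deriv η) := (contDiff_infty_iff_deriv.mp sη).2
  have dη : ∀ x, HasDerivAt η (deriv η x) x := fun x =>
    (sη.differentiable (by simp) x).hasDerivAt
  have pη2 : Function.Periodic η (2 * π) := fun x => by
    rw [two_mul, ← add_assoc, pη, pη, neg_neg]
  obtain ⟨C, hC0, hC⟩ := bdd_of_periodic sη'.continuous (fun x => by
    have h1 : HasDerivAt (fun y => η (y + 2 * π)) (deriv η (x + 2 * π)) x :=
      HasDerivAt.comp_add_const x (2 * π) (dη _)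
    have h2 : (fun y => η (y + 2 * π)) = η := funext pη2
    rw [h2] at h1
    exact h1.deriv.symm)
  obtain ⟨A, hA0, hA⟩ := bdd_of_periodic (f := fun x => (a x)⁻¹)
    (sa.continuous.inv₀ fun x => (ha x).ne') (fun x => by
      simp only [two_mul, ← add_assoc, pa])
  have hA' : ∀ x, 1 / A ≤ a x := fun x => by
    have := (le_abs_self _).trans (hA x)
    rw [div_le_iff₀ hA0]
    have h2 := mul_le_mul_of_nonneg_left this (ha x).le
    rwa [mul_inv_cancel₀ (ha x).ne'] at h2
  let b := min (min b0 1) (1 / (2 * A * C))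
  have hb : 0 < b := by positivity
  have hb1 : b ≤ 1 := (min_le_left _ _).trans (min_le_right _ _)
  have hbb : b ≤ b0 := (min_le_left _ _).trans (min_le_left _ _)
  have hbC : b ≤ 1 / (2 * A * C) := min_le_right _ _
  have hρ : ∀ x u, 1 / (2 * A) ≤ a x + om b u * deriv η x := fun x u => by
    have h1 : |om b u * deriv η x| ≤ 1 / (2 * A * C) * C := by
      rw [abs_mul]
      exact mul_le_mul ((om_abs hb u).le.trans hbC) (hC x) (abs_nonneg _) (by positivity)
    have h2 : 1 / (2 * A * C) * C = 1 / (2 * A) := by field_simp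
    have h3 : 1 / A = 1 / (2 * A) + 1 / (2 * A) := by field_simp; ring
    linarith [neg_abs_le (om b u * deriv η x), hA' x]
  let S : ℝ → ℝ := fun u => ∫ x in (0 : ℝ)..u, a x
  let Y : ℝ → ℝ := fun u => ∫ x in (0 : ℝ)..u, yy b x
  have sS : ContDiff ℝ ∞ S := prim_smooth sa
  have sY : ContDiff ℝ ∞ Y := prim_smooth (yy_smooth hb hb1)
  have dS : ∀ x, HasDerivAt S (a x) x := fun x =>
    (sa.continuous.integral_hasStrictDerivAt 0 x).hasDerivAt
  have dY : ∀ x, HasDerivAt Y (yy b x) x := fun x =>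
    ((yy_smooth hb hb1).continuous.integral_hasStrictDerivAt 0 x).hasDerivAt
  have so : ContDiff ℝ ∞ (om b) := om_smooth b
  let Ψ : ℝ × ℝ → Plane := fun p => (S p.1 + om b p.2 * η p.1) • e0 + Y p.2 • e1
  let G : ℝ × ℝ → E4 := fun p => γ p.1 + om b p.2 • D p.1 + p.2 ^ 2 • e
  have sΨ : ContDiff ℝ ∞ Ψ := by fun_prop
  have sG : ContDiff ℝ ∞ G := by fun_prop
  have d1 : ∀ x u, HasDerivAt (fun x => S x + om b u * η x) (a x + om b u * deriv η x) x :=
    fun x u => (dS x).add ((dη x).const_mul _)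
  have fΨ : ∀ p k : ℝ × ℝ, fderiv ℝ Ψ p k
      = !₂[k.1 * (a p.1 + om b p.2 * deriv η p.1) + k.2 * (om' b p.2 * η p.1), k.2 * yy b p.2] := by
    intro p k
    rw [fderiv_prod_apply (sΨ.differentiable (by simp) _)
      (A := (a p.1 + om b p.2 * deriv η p.1) • e0)
      (B := (om' b p.2 * η p.1) • e0 + yy b p.2 • e1)
      (((d1 p.1 p.2).smul_const e0).add_const (Y p.2 • e1))
      ((((om_deriv b p.2).mul_const (η p.1)).const_add (S p.1)).smul_const e0 |>.add
        ((dY p.2).smul_const e1)), ← e_comb]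
    module
  have fG : ∀ p k : ℝ × ℝ, fderiv ℝ G p k
      = (k.1 * (a p.1 + om b p.2 * deriv η p.1)) • T p.1 + (k.2 * om' b p.2) • D p.1
        + (k.2 * (2 * p.2)) • e := by
    intro p k
    rw [fderiv_prod_apply (sG.differentiable (by simp) _)
      (A := a p.1 • T p.1 + om b p.2 • (deriv η p.1 • T p.1))
      (B := om' b p.2 • D p.1 + (2 * p.2) • e)
      (((dγ p.1).add ((dD p.1).const_smul (om b p.2))).add_const (p.2 ^ 2 • e))
      ((((om_deriv b p.2).smul_const (D p.1)).const_add (γ p.1)).add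
        (((hasDerivAt_pow 2 p.2).congr_deriv (by simp)).smul_const e))]
    module
  have hYb : Function.Bijective Y := bij_of_deriv_ge (by positivity) dY (yy_ge hb hb1)
  have hSb : ∀ u, Function.Bijective (fun x => S x + om b u * η x) := fun u =>
    bij_of_deriv_ge (by positivity) (fun x => d1 x u) (fun x => hρ x u)
  have hGe : ∀ p, ⟪G p, e⟫ = p.2 ^ 2 := fun p => by
    simp only [G, inner_add_left, real_inner_smul_left, hγe, hDe, he]; ring
  obtain ⟨X, hX, hX'⟩ := reparam w Ψ G sΨ sG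
    (by
      constructor
      · intro p q hpq
        simp only [Ψ, e_comb] at hpq
        have h0 := congrArg (fun z : Plane => z 0) hpq
        have h1 := congrArg (fun z : Plane => z 1) hpq
        simp only [Matrix.cons_val_zero, Matrix.cons_val_one] at h0 h1
        have h2 := hYb.1 h1
        rw [← h2] at h0
        exact Prod.ext ((hSb p.2).1 h0) h2
      · intro z
        obtain ⟨u, hu⟩ := hYb.2 (z 1)
        obtain ⟨x, hx⟩ := (hSb u).2 (z 0)
        refine ⟨(x, u), ?_⟩
        simp only at hx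
        simp only [Ψ, e_comb, hu, hx]
        ext i; fin_cases i <;> simp)
    (by
      intro p
      have h1 : 0 < a p.1 + om b p.2 * deriv η p.1 := lt_of_lt_of_le (by positivity) (hρ _ _)
      have h2 : 0 < yy b p.2 := lt_of_lt_of_le (by positivity) (yy_ge hb hb1 _)
      constructor
      · rw [injective_iff_map_eq_zero]
        intro k hk
        rw [fΨ] at hk
        have h3 := congrArg (fun z : Plane => z 0) hk
        have h4 := congrArg (fun z : Plane => z 1) hk
        simp only [Matrix.cons_val_zero, Matrix.cons_val_one, PiLp.zero_apply] at h3 h4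
        have h5 : k.2 = 0 := (mul_eq_zero.mp h4).resolve_right h2.ne'
        rw [h5, zero_mul, add_zero] at h3
        exact Prod.ext ((mul_eq_zero.mp h3).resolve_right h1.ne') h5
      · intro z
        refine ⟨((z 0 - z 1 / yy b p.2 * (om' b p.2 * η p.1)) / (a p.1 + om b p.2 * deriv η p.1),
          z 1 / yy b p.2), ?_⟩
        rw [fΨ]
        ext i; fin_cases i
        · simp only [Fin.zero_eta, Matrix.cons_val_zero]; field_simp; ring
        · simp only [Fin.mk_one, Matrix.cons_val_one, Matrix.cons_val_zero]; field_simp)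
    (by
      intro p k
      rw [← sq_eq_sq₀ (norm_nonneg _) (norm_nonneg _), fΨ, fG, norm_sq_pl,
        norm_comb (hT _) (hTD _) (hD _) (hTe _) (hDe _) he, mul_pow k.2 (yy b p.2), yy_sq]
      ring)
    (by
      intro p
      have h1 : S (p.1 + π) = S p.1 + w := by
        have := Function.Periodic.intervalIntegral_add_eq_add (f := a) (T := π) pa 0 p.1
          (fun s t => sa.continuous.intervalIntegrable s t)
        simp only [S]
        rw [this, zero_add, hw]
      have h2 : Y (-p.2) = -Y p.2 := by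
        have := intervalIntegral.integral_comp_neg (f := yy b) (a := -p.2) (b := 0)
        simp only [yy_neg, neg_zero, neg_neg] at this
        simp only [Y]
        rw [← this, intervalIntegral.integral_symm]
      simp only [Ψ, e_comb, tau_apply, h1, h2, om_neg, pη]
      ext i; fin_cases i
      · simp [glide]; ring
      · simp [glide])
    (by
      intro p
      simp only [G, tau_apply, om_neg, pγ, pD]
      simp)
    (by
      intro p q hp hpq h
      have h1 : p.2 ^ 2 = q.2 ^ 2 := by rw [← hGe, ← hGe, h]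
      have h2 : m (p.1, om b p.2) = m (q.1, om b q.2) := by
        simp only [G, h1] at h
        exact add_right_cancel h
      obtain ⟨h3, h4⟩ := hthin _ hp _ hpq _ _ ((om_abs hb _).trans_le hbb)
        ((om_abs hb _).trans_le hbb) h2
      exact Prod.ext h3 (om_inj hb h4 h1))
    (by
      intro p
      have h1 := real_inner_le_norm (G p) e
      have h2 : ‖e‖ = 1 := by
        rw [real_inner_self_eq_norm_sq] at he
        nlinarith [norm_nonneg e]
      rw [hGe, h2, mul_one] at h1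
      exact h1)
  exact ⟨b, X, hX, hX'⟩

end Pool.Agent.H352Z.Moeb
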