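import Pool.Agent.H352Z.Moeb.Poly
import Pool.Agent.H352Z.Moeb.Frame

set_option autoImplicit false

namespace Pool.Agent.H352Z.Moeb

open scoped ContDiff Topology RealInnerProductSpace
open Real Set

noncomputable def vec (x y z t : ℝ) : E4 := !₂[x, y, z, t]

theorem vec_eq (x y z t : ℝ) :
    vec x y z t = x • vec 1 0 0 0 + y • vec 0 1 0 0 + z • vec 0 0 1 0 + t • vec 0 0 0 1 := by
  ext i; fin_cases i <;> simp [vec]

theorem vec_add (x y z t x' y' z' t' : ℝ) :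
    vec x y z t + vec x' y' z' t' = vec (x + x') (y + y') (z + z') (t + t') := by
  ext i; fin_cases i <;> simp [vec]

theorem vec_smul (r x y z t : ℝ) : r • vec x y z t = vec (r * x) (r * y) (r * z) (r * t) := by
  ext i; fin_cases i <;> simp [vec]

theorem vec_neg (x y z t : ℝ) : -vec x y z t = vec (-x) (-y) (-z) (-t) := by
  ext i; fin_cases i <;> simp [vec]

theorem vec_inner (x y z t x' y' z' t' : ℝ) :
    ⟪vec x y z t, vec x' y' z' t'⟫ = x * x' + y * y' + z * z' + t * t' := by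
  simp [vec, PiLp.inner_apply, Fin.sum_univ_four]
  ring

theorem vec_deriv {f g h : ℝ → ℝ} {f' g' h' x : ℝ} (hf : HasDerivAt f f' x)
    (hg : HasDerivAt g g' x) (hh : HasDerivAt h h' x) :
    HasDerivAt (fun y => vec (f y) (g y) (h y) 0) (vec f' g' h' 0) x := by
  have := ((hf.smul_const (vec 1 0 0 0)).add (hg.smul_const (vec 0 1 0 0))).add
    (hh.smul_const (vec 0 0 1 0))
  have h1 : (fun y => vec (f y) (g y) (h y) 0)
      = fun y => f y • vec 1 0 0 0 + g y • vec 0 1 0 0 + h y • vec 0 0 1 0 := by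
    funext y
    rw [vec_eq (f y), zero_smul, add_zero]
  rw [vec_eq f' g' h' 0, zero_smul, add_zero, h1]
  exact this

theorem vec_smooth {f g h : ℝ → ℝ} (hf : ContDiff ℝ ∞ f) (hg : ContDiff ℝ ∞ g)
    (hh : ContDiff ℝ ∞ h) : ContDiff ℝ ∞ (fun y => vec (f y) (g y) (h y) 0) := by
  have : (fun y => vec (f y) (g y) (h y) 0)
      = fun y => f y • vec 1 0 0 0 + g y • vec 0 1 0 0 + h y • vec 0 0 1 0 := by
    funext y
    rw [vec_eq (f y), zero_smul, add_zero]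
  rw [this]; fun_prop

noncomputable def AA (x : ℝ) : ℝ := √(p1 x ^ 2 + p2 x ^ 2 + p3 x ^ 2)
noncomputable def NN (x : ℝ) : ℝ := √(W1 x ^ 2 + W2 x ^ 2 + W3 x ^ 2)
noncomputable def eta (x : ℝ) : ℝ := mu x * AA x ^ 3 * (NN x)⁻¹ ^ 3

theorem AA_pos (x : ℝ) : 0 < AA x := Real.sqrt_pos.mpr (p_pos x)
theorem NN_pos (x : ℝ) : 0 < NN x := Real.sqrt_pos.mpr (W_pos x)
theorem AA_sq (x : ℝ) : AA x ^ 2 = p1 x ^ 2 + p2 x ^ 2 + p3 x ^ 2 := Real.sq_sqrt (p_pos x).le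
theorem NN_sq (x : ℝ) : NN x ^ 2 = W1 x ^ 2 + W2 x ^ 2 + W3 x ^ 2 := Real.sq_sqrt (W_pos x).le

theorem sm_AA {n : WithTop ℕ∞} : ContDiff ℝ n AA := by
  unfold AA
  exact ContDiff.sqrt (((sm_p1.pow 2).add (sm_p2.pow 2)).add (sm_p3.pow 2)) fun x => (p_pos x).ne'

theorem sm_NN {n : WithTop ℕ∞} : ContDiff ℝ n NN := by
  unfold NN
  exact ContDiff.sqrt (((sm_W1.pow 2).add (sm_W2.pow 2)).add (sm_W3.pow 2)) fun x => (W_pos x).ne'

theorem sm_AAi {n : WithTop ℕ∞} : ContDiff ℝ n (fun x => (AA x)⁻¹) :=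
  sm_AA.inv fun x => (AA_pos x).ne'

theorem sm_NNi {n : WithTop ℕ∞} : ContDiff ℝ n (fun x => (NN x)⁻¹) :=
  sm_NN.inv fun x => (NN_pos x).ne'

theorem sm_eta {n : WithTop ℕ∞} : ContDiff ℝ n eta := by
  unfold eta
  exact (sm_mu.mul (sm_AA.pow 3)).mul (sm_NNi.pow 3)

theorem per_AA (x : ℝ) : AA (x + π) = AA x := by simp only [AA, per_p1, per_p2, per_p3]
theorem per_NN (x : ℝ) : NN (x + π) = NN x := by simp only [NN, per_W1, per_W2, per_W3, neg_sq]
theorem per_eta (x : ℝ) : eta (x + π) = -eta x := by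
  simp only [eta, per_AA, per_NN, per_mu]; ring

theorem d_inv_sqrt {f g h : ℝ → ℝ} {f' g' h' x : ℝ} (hf : HasDerivAt f f' x)
    (hg : HasDerivAt g g' x) (hh : HasDerivAt h h' x) (hp : 0 < f x ^ 2 + g x ^ 2 + h x ^ 2) :
    HasDerivAt (fun y => (√(f y ^ 2 + g y ^ 2 + h y ^ 2))⁻¹)
      (-(f x * f' + g x * g' + h x * h') * (√(f x ^ 2 + g x ^ 2 + h x ^ 2))⁻¹ ^ 3) x := by
  have h1 := (((hf.pow 2).add (hg.pow 2)).add (hh.pow 2)).sqrt hp.ne'
  have h2 : √(f x ^ 2 + g x ^ 2 + h x ^ 2) ≠ 0 := (Real.sqrt_pos.mpr hp).ne'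
  refine (h1.inv h2).congr_deriv ?_
  simp only [Pi.add_apply, Pi.pow_apply]
  field_simp
  norm_num
  ring

noncomputable def D1 (x : ℝ) : ℝ := (NN x)⁻¹ * W1 x + eta x * ((AA x)⁻¹ * p1 x)
noncomputable def D2 (x : ℝ) : ℝ := (NN x)⁻¹ * W2 x + eta x * ((AA x)⁻¹ * p2 x)
noncomputable def D3 (x : ℝ) : ℝ := (NN x)⁻¹ * W3 x + eta x * ((AA x)⁻¹ * p3 x)

theorem d_D {W p : ℝ → ℝ} {V q x : ℝ} (hW : HasDerivAt W V x) (hp : HasDerivAt p q x)
    (h : (W1 x ^ 2 + W2 x ^ 2 + W3 x ^ 2) * V - (W1 x * V1 x + W2 x * V2 x + W3 x * V3 x) * W x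
      + mu x * ((p1 x ^ 2 + p2 x ^ 2 + p3 x ^ 2) * q
        - (p1 x * q1 x + p2 x * q2 x + p3 x * q3 x) * p x) = 0) :
    HasDerivAt (fun y => (NN y)⁻¹ * W y + eta y * ((AA y)⁻¹ * p y))
      (deriv eta x * ((AA x)⁻¹ * p x)) x := by
  have h1 : HasDerivAt (fun y => (NN y)⁻¹) _ x := d_inv_sqrt (d_W1 x) (d_W2 x) (d_W3 x) (W_pos x)
  have h2 : HasDerivAt (fun y => (AA y)⁻¹) _ x := d_inv_sqrt (d_p1 x) (d_p2 x) (d_p3 x) (p_pos x)
  have h3 : HasDerivAt eta (deriv eta x) x := ((sm_eta (n := 1)).differentiable (by simp) x).hasDerivAt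
  refine ((h1.mul hW).add (h3.mul (h2.mul hp))).congr_deriv ?_
  rw [← NN_sq, ← AA_sq] at h
  have hA := (AA_pos x).ne'
  have hN := (NN_pos x).ne'
  change -(W1 x * V1 x + W2 x * V2 x + W3 x * V3 x) * (NN x)⁻¹ ^ 3 * W x + (NN x)⁻¹ * V +
    (deriv eta x * ((AA x)⁻¹ * p x) + eta x *
      (-(p1 x * q1 x + p2 x * q2 x + p3 x * q3 x) * (AA x)⁻¹ ^ 3 * p x + (AA x)⁻¹ * q)) = _
  unfold eta
  field_simp
  linear_combination (AA x) * h

theorem d_D1 (x : ℝ) : HasDerivAt D1 (deriv eta x * ((AA x)⁻¹ * p1 x)) x :=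
  d_D (d_W1 x) (d_p1 x) (by simp only [W1, W2, W3, V1, V2, V3, mu, p1, p2, p3, q1, q2, q3]; ring)
theorem d_D2 (x : ℝ) : HasDerivAt D2 (deriv eta x * ((AA x)⁻¹ * p2 x)) x :=
  d_D (d_W2 x) (d_p2 x) (by simp only [W1, W2, W3, V1, V2, V3, mu, p1, p2, p3, q1, q2, q3]; ring)
theorem d_D3 (x : ℝ) : HasDerivAt D3 (deriv eta x * ((AA x)⁻¹ * p3 x)) x :=
  d_D (d_W3 x) (d_p3 x) (by simp only [W1, W2, W3, V1, V2, V3, mu, p1, p2, p3, q1, q2, q3]; ring)

theorem Wp (x : ℝ) : W1 x * p1 x + W2 x * p2 x + W3 x * p3 x = 0 := by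
  simp only [W1, W2, W3, p1, p2, p3]; ring

theorem alg_AA : Alg (fun z => AA z.1) :=
  Alg.of_sq (sm_AA.comp contDiff_fst) (((alg_p1.pow 2).add (alg_p2.pow 2)).add (alg_p3.pow 2))
    (fun z => AA_sq z.1)
theorem alg_NN : Alg (fun z => NN z.1) :=
  Alg.of_sq (sm_NN.comp contDiff_fst) (((alg_W1.pow 2).add (alg_W2.pow 2)).add (alg_W3.pow 2))
    (fun z => NN_sq z.1)
theorem alg_AAi : Alg (fun z => (AA z.1)⁻¹) :=
  Alg.of_mul (sm_AAi.comp contDiff_fst) alg_AA (Alg.const 1) (AA_pos _).ne'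
    (fun z => mul_inv_cancel₀ (AA_pos _).ne')
theorem alg_NNi : Alg (fun z => (NN z.1)⁻¹) :=
  Alg.of_mul (sm_NNi.comp contDiff_fst) alg_NN (Alg.const 1) (NN_pos _).ne'
    (fun z => mul_inv_cancel₀ (NN_pos _).ne')
theorem alg_eta : Alg (fun z => eta z.1) := (alg_mu.mul (alg_AA.pow 3)).mul (alg_NNi.pow 3)
theorem alg_D1 : Alg (fun z => D1 z.1) :=
  (alg_NNi.mul alg_W1).add (alg_eta.mul (alg_AAi.mul alg_p1))
theorem alg_D2 : Alg (fun z => D2 z.1) :=
  (alg_NNi.mul alg_W2).add (alg_eta.mul (alg_AAi.mul alg_p2))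
theorem alg_D3 : Alg (fun z => D3 z.1) :=
  (alg_NNi.mul alg_W3).add (alg_eta.mul (alg_AAi.mul alg_p3))
theorem alg_om (b : ℝ) : Alg (fun z => om b z.2) :=
  Alg.of_mul ((om_smooth b).comp contDiff_snd) ((Alg.const 1).add (Alg.snd.pow 2))
    ((Alg.const b).mul Alg.snd) (by norm_num) (fun z => by unfold om; field_simp)

theorem per_D1 (x : ℝ) : D1 (x + π) = -D1 x := by
  simp only [D1, per_NN, per_AA, per_eta, per_W1, per_p1]; ring
theorem per_D2 (x : ℝ) : D2 (x + π) = -D2 x := by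
  simp only [D2, per_NN, per_AA, per_eta, per_W2, per_p2]; ring
theorem per_D3 (x : ℝ) : D3 (x + π) = -D3 x := by
  simp only [D3, per_NN, per_AA, per_eta, per_W3, per_p3]; ring

theorem sm_D1 : ContDiff ℝ ∞ D1 := (sm_NNi.mul sm_W1).add (sm_eta.mul (sm_AAi.mul sm_p1))
theorem sm_D2 : ContDiff ℝ ∞ D2 := (sm_NNi.mul sm_W2).add (sm_eta.mul (sm_AAi.mul sm_p2))
theorem sm_D3 : ContDiff ℝ ∞ D3 := (sm_NNi.mul sm_W3).add (sm_eta.mul (sm_AAi.mul sm_p3))

theorem box {l : ℝ} (hl : 0 < l) (v x : ℝ) (hx : x ∈ Icc (-(l / 2)) (l / 2)) :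
    ∃ t, l * g1 t + v * D1 t = x := by
  have hc : Continuous fun t => l * g1 t + v * D1 t :=
    (continuous_const.mul (sm_g1 (n := 0)).continuous).add (continuous_const.mul sm_D1.continuous)
  have h2 : √2 * √2 = 2 := Real.mul_self_sqrt (by norm_num)
  have h3 : g1 (π / 4) = 1 / 2 := by
    simp only [g1, cos_pi_div_four, sin_pi_div_four]; linear_combination h2 / 4
  have h4 : g1 (-(π / 4)) = -(1 / 2) := by
    simp only [g1, cos_neg, sin_neg, cos_pi_div_four, sin_pi_div_four]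
    linear_combination -h2 / 4
  refine mem_range_of_exists_le_of_exists_ge hc ?_ ?_
  · by_cases h : v * D1 (-(π / 4)) ≤ 0
    · exact ⟨-(π / 4), by rw [h4]; linarith [hx.1]⟩
    · exact ⟨-(π / 4) + π, by rw [per_g1, per_D1, h4]; linarith [hx.1]⟩
  · by_cases h : 0 ≤ v * D1 (π / 4)
    · exact ⟨π / 4, by rw [h3]; linarith [hx.2]⟩
    · exact ⟨π / 4 + π, by rw [per_g1, per_D1, h3]; linarith [hx.2]⟩

theorem main (w : ℝ) (hw : 0 < w) :
    ∃ X : MoebiusBand w → E4, IsIsometricEmbedding w X ∧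
      ∃ S : Finset (MvPolynomial (Fin 4) ℝ),
        (∀ x, (X x).ofLp ∈ zeroSet S) ∧ algDim (zeroSet S) = 2 := by
  have hI : 0 < ∫ x in (0 : ℝ)..π, AA x :=
    intervalIntegral.intervalIntegral_pos_of_pos
      ((sm_AA (n := 0)).continuous.intervalIntegrable _ _) AA_pos pi_pos
  set l := w / ∫ x in (0 : ℝ)..π, AA x with hl
  have hl0 : 0 < l := div_pos hw hI
  obtain ⟨b, X, hX, hX'⟩ := frame w (fun x => vec (l * g1 x) (l * g2 x) (l * g3 x) 0)
    (fun x => vec (D1 x) (D2 x) (D3 x) 0)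
    (fun x => vec ((AA x)⁻¹ * p1 x) ((AA x)⁻¹ * p2 x) ((AA x)⁻¹ * p3 x) 0)
    (fun x => l * AA x) eta (vec 0 0 0 1)
    (vec_smooth (contDiff_const.mul sm_g1) (contDiff_const.mul sm_g2) (contDiff_const.mul sm_g3))
    (vec_smooth sm_D1 sm_D2 sm_D3) (contDiff_const.mul sm_AA) sm_eta
    (fun x => by
      have hA := (AA_pos x).ne'
      refine (vec_deriv ((d_g1 x).const_mul l) ((d_g2 x).const_mul l)
        ((d_g3 x).const_mul l)).congr_deriv ?_
      rw [vec_smul]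
      congr 1 <;> field_simp
      ring)
    (fun x => (vec_deriv (d_D1 x) (d_D2 x) (d_D3 x)).congr_deriv (by rw [vec_smul, mul_zero]))
    (fun x => by
      have hA := (AA_pos x).ne'
      rw [vec_inner]; field_simp; linear_combination -AA_sq x)
    (fun x => by
      have hA := (AA_pos x).ne'
      have hN := (NN_pos x).ne'
      rw [vec_inner]; unfold D1 D2 D3; field_simp
      linear_combination (AA x) * Wp x - (NN x * eta x) * AA_sq x)
    (fun x => by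
      have hA := (AA_pos x).ne'
      have hN := (NN_pos x).ne'
      rw [vec_inner]; unfold D1 D2 D3; field_simp
      linear_combination (2 * AA x * NN x * eta x) * Wp x - (NN x * eta x) ^ 2 * AA_sq x
        - AA x ^ 2 * NN_sq x)
    (fun x => by rw [vec_inner]; ring) (fun x => by rw [vec_inner]; ring)
    (fun x => by rw [vec_inner]; ring) (by rw [vec_inner]; ring)
    (fun x => mul_pos hl0 (AA_pos x)) (fun x => by rw [per_AA])
    (fun x => by simp only [per_g1, per_g2, per_g3])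
    (fun x => by simp only [per_D1, per_D2, per_D3, vec_neg, neg_zero]) per_eta
    (by rw [intervalIntegral.integral_const_mul, hl]; field_simp)
    (fun x y hxy h => by
      have h1 := congrArg (fun z : E4 => z 0) h
      have h3 := congrArg (fun z : E4 => z 2) h
      simp only [vec, Matrix.cons_val] at h1 h3
      exact g_inj hxy (mul_left_cancel₀ hl0.ne' h1) (mul_left_cancel₀ hl0.ne' h3))
  let G : ℝ × ℝ → Fin 4 → ℝ := fun p => ![l * g1 p.1 + om b p.2 * D1 p.1,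
    l * g2 p.1 + om b p.2 * D2 p.1, l * g3 p.1 + om b p.2 * D3 p.1, p.2 ^ 2]
  obtain ⟨S, hS, hdim⟩ := exists_zeroSet G (fun i => by
      fin_cases i
      · exact ((Alg.const l).mul alg_g1).add ((alg_om b).mul alg_D1)
      · exact ((Alg.const l).mul alg_g2).add ((alg_om b).mul alg_D2)
      · exact ((Alg.const l).mul alg_g3).add ((alg_om b).mul alg_D3)
      · exact Alg.snd.pow 2) (half_pos hl0)
    (fun x hx y hy => by
      obtain ⟨t, ht⟩ := box hl0 (om b √y) x hx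
      exact ⟨(t, √y), ht, Real.sq_sqrt hy⟩)
  refine ⟨X, hX, S, fun x => ?_, hdim⟩
  obtain ⟨p, hp⟩ := hX' x
  have : (X x).ofLp = G p := by
    rw [hp, vec_smul, vec_smul, vec_add, vec_add]
    funext i; fin_cases i <;> simp [vec, G]
  rw [this]; exact hS p

end Pool.Agent.H352Z.Moeb
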