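import Pool.Agent.H352Z.Moeb.Alg

set_option autoImplicit false

namespace Pool.Agent.H352Z.Moeb

open scoped ContDiff Topology
open Real

theorem dmon (k : ℝ) (i j : ℕ) (x : ℝ) : HasDerivAt (fun x => k * cos x ^ i * sin x ^ j)
    (k * (i * cos x ^ (i - 1) * (-sin x)) * sin x ^ j
      + k * cos x ^ i * (j * sin x ^ (j - 1) * cos x)) x :=
  (((hasDerivAt_cos x).pow i).const_mul k).mul ((hasDerivAt_sin x).pow j)

theorem Alg.mon (k : ℝ) (i j : ℕ) : Alg (fun z => k * Real.cos z.1 ^ i * Real.sin z.1 ^ j) :=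
  ((Alg.const k).mul (Alg.cos.pow i)).mul (Alg.sin.pow j)

noncomputable def g1 (x : ℝ) : ℝ :=
  (1) * cos x ^ 1 * sin x ^ 1

noncomputable def g2 (x : ℝ) : ℝ :=
  (1) * cos x ^ 1 * sin x ^ 3

noncomputable def g3 (x : ℝ) : ℝ :=
  (1) * cos x ^ 0 * sin x ^ 6

noncomputable def p1 (x : ℝ) : ℝ :=
  (1) * cos x ^ 2 * sin x ^ 0 + (-1) * cos x ^ 0 * sin x ^ 2

noncomputable def p2 (x : ℝ) : ℝ :=
  (3) * cos x ^ 2 * sin x ^ 2 + (-1) * cos x ^ 0 * sin x ^ 4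

noncomputable def p3 (x : ℝ) : ℝ :=
  (6) * cos x ^ 1 * sin x ^ 5

noncomputable def q1 (x : ℝ) : ℝ :=
  (-4) * cos x ^ 1 * sin x ^ 1

noncomputable def q2 (x : ℝ) : ℝ :=
  (6) * cos x ^ 3 * sin x ^ 1 + (-10) * cos x ^ 1 * sin x ^ 3

noncomputable def q3 (x : ℝ) : ℝ :=
  (30) * cos x ^ 2 * sin x ^ 4 + (-6) * cos x ^ 0 * sin x ^ 6

noncomputable def W1 (x : ℝ) : ℝ :=
  (54) * cos x ^ 4 * sin x ^ 5 + (12) * cos x ^ 2 * sin x ^ 7 + (6) * cos x ^ 0 * sin x ^ 9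

noncomputable def W2 (x : ℝ) : ℝ :=
  (-30) * cos x ^ 4 * sin x ^ 3 + (12) * cos x ^ 2 * sin x ^ 5 + (-6) * cos x ^ 0 * sin x ^ 7

noncomputable def W3 (x : ℝ) : ℝ :=
  (6) * cos x ^ 5 * sin x ^ 0 + (-4) * cos x ^ 3 * sin x ^ 2 + (6) * cos x ^ 1 * sin x ^ 4

noncomputable def V1 (x : ℝ) : ℝ :=
  (270) * cos x ^ 5 * sin x ^ 4 + (-132) * cos x ^ 3 * sin x ^ 6 + (30) * cos x ^ 1 * sin x ^ 8

noncomputable def V2 (x : ℝ) : ℝ :=
  (-90) * cos x ^ 5 * sin x ^ 2 + (180) * cos x ^ 3 * sin x ^ 4 + (-66) * cos x ^ 1 * sin x ^ 6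

noncomputable def V3 (x : ℝ) : ℝ :=
  (-38) * cos x ^ 4 * sin x ^ 1 + (36) * cos x ^ 2 * sin x ^ 3 + (-6) * cos x ^ 0 * sin x ^ 5

noncomputable def mu (x : ℝ) : ℝ :=
  (540) * cos x ^ 8 * sin x ^ 1 + (240) * cos x ^ 6 * sin x ^ 3 + (360) * cos x ^ 4 * sin x ^ 5 + (-144) * cos x ^ 2 * sin x ^ 7 + (-36) * cos x ^ 0 * sin x ^ 9

theorem d_g1 (x : ℝ) : HasDerivAt g1 (p1 x) x :=
  (dmon (1) 1 1 x).congr_deriv (by unfold p1; norm_num; ring)

theorem d_g2 (x : ℝ) : HasDerivAt g2 (p2 x) x :=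
  (dmon (1) 1 3 x).congr_deriv (by unfold p2; norm_num; ring)

theorem d_g3 (x : ℝ) : HasDerivAt g3 (p3 x) x :=
  (dmon (1) 0 6 x).congr_deriv (by unfold p3; norm_num; ring)

theorem d_p1 (x : ℝ) : HasDerivAt p1 (q1 x) x :=
  ((dmon (1) 2 0 x).add (dmon (-1) 0 2 x)).congr_deriv (by unfold q1; norm_num; ring)

theorem d_p2 (x : ℝ) : HasDerivAt p2 (q2 x) x :=
  ((dmon (3) 2 2 x).add (dmon (-1) 0 4 x)).congr_deriv (by unfold q2; norm_num; ring)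

theorem d_p3 (x : ℝ) : HasDerivAt p3 (q3 x) x :=
  (dmon (6) 1 5 x).congr_deriv (by unfold q3; norm_num; ring)

theorem d_W1 (x : ℝ) : HasDerivAt W1 (V1 x) x :=
  (((dmon (54) 4 5 x).add (dmon (12) 2 7 x)).add (dmon (6) 0 9 x)).congr_deriv (by unfold V1; norm_num; ring)

theorem d_W2 (x : ℝ) : HasDerivAt W2 (V2 x) x :=
  (((dmon (-30) 4 3 x).add (dmon (12) 2 5 x)).add (dmon (-6) 0 7 x)).congr_deriv (by unfold V2; norm_num; ring)

theorem d_W3 (x : ℝ) : HasDerivAt W3 (V3 x) x :=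
  (((dmon (6) 5 0 x).add (dmon (-4) 3 2 x)).add (dmon (6) 1 4 x)).congr_deriv (by unfold V3; norm_num; ring)

theorem alg_g1 : Alg (fun z => g1 z.1) :=
  (Alg.mon (1) 1 1)

theorem sm_g1 {n : WithTop ℕ∞} : ContDiff ℝ n g1 := by unfold g1; fun_prop

theorem per_g1 (x : ℝ) : g1 (x + π) = g1 x := by
  simp only [g1, cos_add_pi, sin_add_pi]; ring

theorem alg_g2 : Alg (fun z => g2 z.1) :=
  (Alg.mon (1) 1 3)

theorem sm_g2 {n : WithTop ℕ∞} : ContDiff ℝ n g2 := by unfold g2; fun_prop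

theorem per_g2 (x : ℝ) : g2 (x + π) = g2 x := by
  simp only [g2, cos_add_pi, sin_add_pi]; ring

theorem alg_g3 : Alg (fun z => g3 z.1) :=
  (Alg.mon (1) 0 6)

theorem sm_g3 {n : WithTop ℕ∞} : ContDiff ℝ n g3 := by unfold g3; fun_prop

theorem per_g3 (x : ℝ) : g3 (x + π) = g3 x := by
  simp only [g3, cos_add_pi, sin_add_pi]; ring

theorem alg_p1 : Alg (fun z => p1 z.1) :=
  ((Alg.mon (1) 2 0).add (Alg.mon (-1) 0 2))

theorem sm_p1 {n : WithTop ℕ∞} : ContDiff ℝ n p1 := by unfold p1; fun_prop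

theorem per_p1 (x : ℝ) : p1 (x + π) = p1 x := by
  simp only [p1, cos_add_pi, sin_add_pi]; ring

theorem alg_p2 : Alg (fun z => p2 z.1) :=
  ((Alg.mon (3) 2 2).add (Alg.mon (-1) 0 4))

theorem sm_p2 {n : WithTop ℕ∞} : ContDiff ℝ n p2 := by unfold p2; fun_prop

theorem per_p2 (x : ℝ) : p2 (x + π) = p2 x := by
  simp only [p2, cos_add_pi, sin_add_pi]; ring

theorem alg_p3 : Alg (fun z => p3 z.1) :=
  (Alg.mon (6) 1 5)

theorem sm_p3 {n : WithTop ℕ∞} : ContDiff ℝ n p3 := by unfold p3; fun_prop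

theorem per_p3 (x : ℝ) : p3 (x + π) = p3 x := by
  simp only [p3, cos_add_pi, sin_add_pi]; ring

theorem alg_W1 : Alg (fun z => W1 z.1) :=
  (((Alg.mon (54) 4 5).add (Alg.mon (12) 2 7)).add (Alg.mon (6) 0 9))

theorem sm_W1 {n : WithTop ℕ∞} : ContDiff ℝ n W1 := by unfold W1; fun_prop

theorem per_W1 (x : ℝ) : W1 (x + π) = -W1 x := by
  simp only [W1, cos_add_pi, sin_add_pi]; ring

theorem alg_W2 : Alg (fun z => W2 z.1) :=
  (((Alg.mon (-30) 4 3).add (Alg.mon (12) 2 5)).add (Alg.mon (-6) 0 7))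

theorem sm_W2 {n : WithTop ℕ∞} : ContDiff ℝ n W2 := by unfold W2; fun_prop

theorem per_W2 (x : ℝ) : W2 (x + π) = -W2 x := by
  simp only [W2, cos_add_pi, sin_add_pi]; ring

theorem alg_W3 : Alg (fun z => W3 z.1) :=
  (((Alg.mon (6) 5 0).add (Alg.mon (-4) 3 2)).add (Alg.mon (6) 1 4))

theorem sm_W3 {n : WithTop ℕ∞} : ContDiff ℝ n W3 := by unfold W3; fun_prop

theorem per_W3 (x : ℝ) : W3 (x + π) = -W3 x := by
  simp only [W3, cos_add_pi, sin_add_pi]; ring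

theorem alg_mu : Alg (fun z => mu z.1) :=
  (((((Alg.mon (540) 8 1).add (Alg.mon (240) 6 3)).add (Alg.mon (360) 4 5)).add (Alg.mon (-144) 2 7)).add (Alg.mon (-36) 0 9))

theorem sm_mu {n : WithTop ℕ∞} : ContDiff ℝ n mu := by unfold mu; fun_prop

theorem per_mu (x : ℝ) : mu (x + π) = -mu x := by
  simp only [mu, cos_add_pi, sin_add_pi]; ring

theorem p_pos (x : ℝ) : 0 < p1 x ^ 2 + p2 x ^ 2 + p3 x ^ 2 := by
  by_contra h
  have h1 : p1 x = 0 := by nlinarith [sq_nonneg (p1 x), sq_nonneg (p2 x), sq_nonneg (p3 x)]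
  have h2 : p2 x = 0 := by nlinarith [sq_nonneg (p1 x), sq_nonneg (p2 x), sq_nonneg (p3 x)]
  unfold p1 at h1
  unfold p2 at h2
  have h3 := sin_sq_add_cos_sq x
  have h4 : cos x ^ 2 = 1 / 2 := by linarith
  have h5 : sin x ^ 2 = 1 / 2 := by linarith
  have h6 : sin x ^ 4 = 1 / 4 := by
    calc sin x ^ 4 = (sin x ^ 2) ^ 2 := by ring
      _ = 1 / 4 := by rw [h5]; norm_num
  rw [h4, h5, h6] at h2
  norm_num at h2

theorem W_pos (x : ℝ) : 0 < W1 x ^ 2 + W2 x ^ 2 + W3 x ^ 2 := by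
  by_contra h
  have h1 : W1 x = 0 := by nlinarith [sq_nonneg (W1 x), sq_nonneg (W2 x), sq_nonneg (W3 x)]
  have h2 : W3 x = 0 := by nlinarith [sq_nonneg (W1 x), sq_nonneg (W2 x), sq_nonneg (W3 x)]
  unfold W1 at h1
  unfold W3 at h2
  have h3 := sin_sq_add_cos_sq x
  have h4 : cos x * (6 * cos x ^ 4 - 4 * cos x ^ 2 * sin x ^ 2 + 6 * sin x ^ 4) = 0 := by
    linear_combination h2
  have h5 : 0 < 6 * cos x ^ 4 - 4 * cos x ^ 2 * sin x ^ 2 + 6 * sin x ^ 4 := by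
    have : (sin x ^ 2 + cos x ^ 2) ^ 2 = 1 := by rw [h3]; norm_num
    nlinarith [sq_nonneg (cos x ^ 2 - sin x ^ 2)]
  have h6 : cos x = 0 := (mul_eq_zero.mp h4).resolve_right h5.ne'
  rw [h6] at h1 h3
  have h7 : sin x ^ 9 = 0 := by linear_combination h1 / 6
  have h8 : sin x = 0 := pow_eq_zero_iff (by norm_num) |>.mp h7
  rw [h8] at h3
  norm_num at h3

theorem g_inj {x y : ℝ} (hxy : |x - y| ≤ π / 2) (h1 : g1 x = g1 y) (h3 : g3 x = g3 y) :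
    x = y := by
  unfold g1 at h1
  unfold g3 at h3
  have h4 : sin x ^ 2 = sin y ^ 2 := by
    have : (sin x ^ 2) ^ 3 = (sin y ^ 2) ^ 3 := by linear_combination h3
    exact (pow_left_inj₀ (sq_nonneg _) (sq_nonneg _) (by norm_num)).mp this
  have h5 : cos x ^ 2 = cos y ^ 2 := by linarith [sin_sq_add_cos_sq x, sin_sq_add_cos_sq y]
  have h6 : cos x * sin x = cos y * sin y := by linear_combination h1
  have h7 : sin (x - y) ^ 2 = 0 := by
    rw [sin_sub]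
    linear_combination (-sin x ^ 2) * h5 + (-cos x ^ 2) * h4 + (2 * cos x * sin x) * h6
  have h8 : sin (x - y) = 0 := pow_eq_zero_iff (by norm_num) |>.mp h7
  have h9 := abs_le.mp hxy
  have := (sin_eq_zero_iff_of_lt_of_lt (by linarith [pi_pos]) (by linarith [pi_pos])).mp h8
  linarith

end Pool.Agent.H352Z.Moeb
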