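import Pool.Agent.H352Z.Moeb.Defs

set_option autoImplicit false

namespace Pool.Agent.H352Z.Moeb

open scoped ContDiff Topology
open Real Set

/-- The deck transformation of the parameter plane. -/
noncomputable def tau : Equiv.Perm (ℝ × ℝ) where
  toFun p := (p.1 + π, -p.2)
  invFun p := (p.1 - π, -p.2)
  left_inv p := by simp
  right_inv p := by simp

theorem tau_apply (p : ℝ × ℝ) : tau p = (p.1 + π, -p.2) := rfl

theorem semiconj_zpow {α β : Type*} (f : α → β) (σ : Equiv.Perm α) (ρ : Equiv.Perm β)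
    (h : ∀ x, f (σ x) = ρ (f x)) (k : ℤ) : ∀ x, f ((σ ^ k) x) = (ρ ^ k) (f x) := by
  have h' : ∀ x, f (σ⁻¹ x) = ρ⁻¹ (f x) := fun x => by
    have := h (σ⁻¹ x)
    have h2 : σ (σ⁻¹ x) = x := by simp
    rw [h2] at this
    rw [this]; simp
  induction k using Int.induction_on with
  | zero => intro x; simp
  | succ k ih => intro x; rw [zpow_add_one, zpow_add_one, Equiv.Perm.mul_apply,
      Equiv.Perm.mul_apply, ih, h]
  | pred k ih => intro x; rw [zpow_sub_one, zpow_sub_one, Equiv.Perm.mul_apply,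
      Equiv.Perm.mul_apply, ih, h']

theorem tau_zpow (k : ℤ) : ∀ p : ℝ × ℝ,
    ((tau ^ k) p).1 = p.1 + k * π ∧ ((tau ^ k) p).2 ^ 2 = p.2 ^ 2 := by
  induction k using Int.induction_on with
  | zero => intro p; simp
  | succ k ih =>
    intro p
    rw [zpow_add_one, Equiv.Perm.mul_apply]
    obtain ⟨h1, h2⟩ := ih (tau p)
    rw [h1, h2, tau_apply]
    constructor
    · push_cast; ring
    · ring
  | pred k ih =>
    intro p
    rw [zpow_sub_one, Equiv.Perm.mul_apply]
    obtain ⟨h1, h2⟩ := ih (tau⁻¹ p)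
    have h3 : tau⁻¹ p = (p.1 - π, -p.2) := rfl
    rw [h1, h2, h3]
    constructor
    · push_cast; ring
    · ring

theorem exists_fund (p : ℝ × ℝ) : ∃ k : ℤ, ((tau ^ k) p).1 ∈ Icc 0 π := by
  refine ⟨-⌊p.1 / π⌋, ?_⟩
  rw [(tau_zpow _ p).1]
  have h1 := Int.floor_le (p.1 / π)
  have h2 := Int.lt_floor_add_one (p.1 / π)
  rw [le_div_iff₀ pi_pos] at h1
  rw [div_lt_iff₀ pi_pos] at h2
  push_cast
  constructor <;> nlinarith

theorem exists_near (x : ℝ) (q : ℝ × ℝ) : ∃ k : ℤ, |x - ((tau ^ k) q).1| ≤ π / 2 := by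
  refine ⟨round ((x - q.1) / π), ?_⟩
  rw [(tau_zpow _ q).1]
  have h1 := abs_sub_round ((x - q.1) / π)
  have h2 : x - (q.1 + (round ((x - q.1) / π) : ℝ) * π)
      = ((x - q.1) / π - round ((x - q.1) / π)) * π := by
    field_simp
    ring
  rw [h2, abs_mul, abs_of_pos pi_pos]
  nlinarith [pi_pos]

theorem reparam (w : ℝ) (Ψ : ℝ × ℝ → Plane) (G : ℝ × ℝ → E4)
    (hΨ : ContDiff ℝ ∞ Ψ) (hG : ContDiff ℝ ∞ G) (hbij : Function.Bijective Ψ)
    (hd : ∀ p, Function.Bijective (fderiv ℝ Ψ p))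
    (hiso : ∀ p k, ‖fderiv ℝ G p k‖ = ‖fderiv ℝ Ψ p k‖)
    (hΨt : ∀ p, Ψ (tau p) = glide w (Ψ p)) (hGt : ∀ p, G (tau p) = G p)
    (hloc : ∀ p q : ℝ × ℝ, p.1 ∈ Icc 0 π → |p.1 - q.1| ≤ π / 2 → G p = G q → p = q)
    (hprop : ∀ p, p.2 ^ 2 ≤ ‖G p‖) :
    ∃ X : MoebiusBand w → E4, IsIsometricEmbedding w X ∧ ∀ x, ∃ p, X x = G p := by
  let L : ℝ × ℝ → (ℝ × ℝ) ≃L[ℝ] Plane := fun p =>
    ContinuousLinearEquiv.ofBijective (fderiv ℝ Ψ p) (LinearMap.ker_eq_bot.mpr (hd p).1)
      (LinearMap.range_eq_top.mpr (hd p).2)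
  have hL : ∀ p, HasStrictFDerivAt Ψ (L p : (ℝ × ℝ) →L[ℝ] Plane) p := fun p =>
    (hΨ.contDiffAt (x := p)).hasStrictFDerivAt (by simp)
  let H : (ℝ × ℝ) ≃ₜ Plane := (Equiv.ofBijective Ψ hbij).toHomeomorphOfContinuousOpen
    hΨ.continuous (isOpenMap_of_hasStrictFDerivAt_equiv hL)
  have hH : ∀ p, H p = Ψ p := fun p => rfl
  have hsymm : ContDiff ℝ ∞ (H.symm : Plane → ℝ × ℝ) :=
    H.contDiff_symm (fun p => (hL p).hasFDerivAt) hΨ
  have hGk : ∀ (k : ℤ) p, G ((tau ^ k) p) = G p := fun k p => by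
    simpa using semiconj_zpow G tau 1 (fun x => by simpa using hGt x) k p
  have hΨk : ∀ (k : ℤ) p, H ((tau ^ k) p) = (glide w ^ k) (H p) :=
    semiconj_zpow H tau (glide w) hΨt
  let F : Plane → E4 := fun x => G (H.symm x)
  have hFk : ∀ (k : ℤ) x, F ((glide w ^ k) x) = F x := fun k x => by
    have : H.symm ((glide w ^ k) x) = (tau ^ k) (H.symm x) := by
      apply H.injective
      rw [hΨk]; simp
    simp only [F, this, hGk]
  have hrel : ∀ x y : Plane,
      (MulAction.orbitRel (Subgroup.zpowers (glide w)) Plane) x y ↔ ∃ k : ℤ, (glide w ^ k) y = x := by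
    intro x y
    rw [MulAction.orbitRel_apply]
    constructor
    · rintro ⟨⟨g, k, rfl⟩, hg⟩
      exact ⟨k, hg⟩
    · rintro ⟨k, hk⟩
      exact ⟨⟨_, k, rfl⟩, hk⟩
  let X : MoebiusBand w → E4 := Quotient.lift F (fun x y hxy => by
    obtain ⟨k, rfl⟩ := (hrel x y).mp hxy
    exact hFk k y)
  have hX : ∀ x, X (proj w x) = F x := fun x => rfl
  have hF : ContDiff ℝ ∞ F := hG.comp hsymm
  have hinj : Function.Injective X := by
    intro a b hab
    induction a using Quotient.inductionOn with | _ x => ?_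
    induction b using Quotient.inductionOn with | _ y => ?_
    have h1 : G (H.symm x) = G (H.symm y) := hab
    obtain ⟨k, hk⟩ := exists_fund (H.symm x)
    obtain ⟨l, hl⟩ := exists_near ((tau ^ k) (H.symm x)).1 (H.symm y)
    have h2 := hloc _ _ hk hl (by rw [hGk, hGk, h1])
    have h3 := congrArg H h2
    rw [hΨk, hΨk, H.apply_symm_apply, H.apply_symm_apply] at h3
    apply Quotient.sound
    refine (hrel x y).mpr ⟨-k + l, ?_⟩
    rw [zpow_add, Equiv.Perm.mul_apply, ← h3, ← Equiv.Perm.mul_apply, ← zpow_add]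
    simp
  have hcont : Continuous X := hF.continuous.quotient_lift _
  have hpc : Continuous (proj w) := continuous_quotient_mk'
  have hproper : IsProperMap X := by
    refine isProperMap_iff_isCompact_preimage.mpr ⟨hcont, fun K hK => ?_⟩
    obtain ⟨R, hR⟩ := hK.isBounded.exists_norm_le
    have hc : IsCompact ((Icc 0 π ×ˢ Icc (-(R + 1)) (R + 1)) ∩ G ⁻¹' K) :=
      (isCompact_Icc.prod isCompact_Icc).inter_right (hK.isClosed.preimage hG.continuous)
    have := hc.image (hpc.comp H.continuous)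
    convert this using 1
    ext a
    induction a using Quotient.inductionOn with | _ x => ?_
    constructor
    · intro ha
      have ha' : G (H.symm x) ∈ K := ha
      obtain ⟨k, hk⟩ := exists_fund (H.symm x)
      refine ⟨(tau ^ k) (H.symm x), ⟨⟨hk, ?_⟩, ?_⟩, ?_⟩
      · have h1 := (tau_zpow k (H.symm x)).2
        have h2 := (hprop (H.symm x)).trans (hR _ ha')
        have h3 : 0 ≤ R := (norm_nonneg _).trans (hR _ ha')
        rw [← h1] at h2
        constructor <;> nlinarith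
      · show G _ ∈ K
        rw [hGk]; exact ha'
      · apply Quotient.sound
        refine (hrel _ x).mpr ⟨k, ?_⟩
        rw [hΨk, H.apply_symm_apply]
    · rintro ⟨p, ⟨-, hp⟩, hpx⟩
      rw [← hpx]
      show G (H.symm (H p)) ∈ K
      rw [H.symm_apply_apply]; exact hp
  refine ⟨X, ⟨hF, ?_, hinj, ?_⟩, ?_⟩
  · intro x h
    obtain ⟨p, rfl⟩ := H.surjective x
    obtain ⟨k, rfl⟩ := (hd p).2 h
    have h1 : G = F ∘ Ψ := by
      funext q
      simp only [F, Function.comp, ← hH, H.symm_apply_apply]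
    have h2 : fderiv ℝ G p = (fderiv ℝ F (Ψ p)).comp (fderiv ℝ Ψ p) := by
      rw [h1]
      exact fderiv_comp p (hF.differentiable (by simp) _) (hΨ.differentiable (by simp) _)
    rw [← hiso, h2]
    rfl
  · exact (Topology.IsClosedEmbedding.of_continuous_injective_isClosedMap hcont hinj
      hproper.isClosedMap).isEmbedding
  · intro a
    induction a using Quotient.inductionOn with | _ x => ?_
    exact ⟨H.symm x, rfl⟩

end Pool.Agent.H352Z.Moeb
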