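import Pool.Agent.H352Z.Moeb.Reparam

set_option autoImplicit false

namespace Pool.Agent.H352Z.Moeb

open scoped ContDiff Topology RealInnerProductSpace
open Real Set Filter

theorem fderiv_prod_apply {E : Type*} [NormedAddCommGroup E] [NormedSpace ℝ E]
    {f : ℝ × ℝ → E} {p : ℝ × ℝ} (hf : DifferentiableAt ℝ f p) {A B : E}
    (hA : HasDerivAt (fun x => f (x, p.2)) A p.1) (hB : HasDerivAt (fun y => f (p.1, y)) B p.2)
    (k : ℝ × ℝ) : fderiv ℝ f p k = k.1 • A + k.2 • B := by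
  have h1 : HasDerivAt (fun x : ℝ => (x, p.2)) ((1 : ℝ), (0 : ℝ)) p.1 :=
    (hasDerivAt_id p.1).prodMk (hasDerivAt_const p.1 p.2)
  have h2 : HasDerivAt (fun y : ℝ => (p.1, y)) ((0 : ℝ), (1 : ℝ)) p.2 :=
    (hasDerivAt_const p.2 p.1).prodMk (hasDerivAt_id p.2)
  have h3 : fderiv ℝ f p (1, 0) = A :=
    (HasFDerivAt.comp_hasDerivAt (f := fun x : ℝ => (x, p.2)) p.1 hf.hasFDerivAt h1).unique hA
  have h4 : fderiv ℝ f p (0, 1) = B :=
    (HasFDerivAt.comp_hasDerivAt (f := fun y : ℝ => (p.1, y)) p.2 hf.hasFDerivAt h2).unique hB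
  have h5 : k = k.1 • ((1 : ℝ), (0 : ℝ)) + k.2 • ((0 : ℝ), (1 : ℝ)) := by ext <;> simp
  rw [← h3, ← h4, ← map_smul, ← map_smul, ← map_add, ← h5]

theorem bij_of_deriv_ge {f f' : ℝ → ℝ} {c : ℝ} (hc : 0 < c) (h : ∀ x, HasDerivAt f (f' x) x)
    (h' : ∀ x, c ≤ f' x) : Function.Bijective f := by
  have hd : Differentiable ℝ f := fun x => (h x).differentiableAt
  have key : ∀ x y, x ≤ y → c * (y - x) ≤ f y - f x := fun x y hxy =>
    mul_sub_le_image_sub_of_le_deriv hd (fun x => by rw [(h x).deriv]; exact h' x) hxy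
  refine ⟨StrictMono.injective (fun x y hxy => ?_), fun z => ?_⟩
  · have := key x y hxy.le
    nlinarith [mul_pos hc (sub_pos.mpr hxy)]
  · have h1 : f (-(|z - f 0| / c)) ≤ z := by
      have := key (-(|z - f 0| / c)) 0 (by simp; positivity)
      have h2 : c * (0 - -(|z - f 0| / c)) = |z - f 0| := by field_simp; ring
      rw [h2] at this
      linarith [neg_abs_le (z - f 0)]
    have h2 : z ≤ f (|z - f 0| / c) := by
      have := key 0 (|z - f 0| / c) (by positivity)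
      have h2 : c * (|z - f 0| / c - 0) = |z - f 0| := by field_simp; ring
      rw [h2] at this
      linarith [le_abs_self (z - f 0)]
    exact mem_range_of_exists_le_of_exists_ge hd.continuous ⟨_, h1⟩ ⟨_, h2⟩

theorem locally_inj {E : Type*} [NormedAddCommGroup E] [NormedSpace ℝ E]
    {f : ℝ × ℝ → E} {f' : ℝ × ℝ →L[ℝ] E} {p : ℝ × ℝ} (hf : HasStrictFDerivAt f f' p)
    (hinj : Function.Injective f') :
    ∀ᶠ z : (ℝ × ℝ) × (ℝ × ℝ) in 𝓝 (p, p), f z.1 = f z.2 → z.1 = z.2 := by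
  obtain ⟨K, hK0, hK⟩ := (LinearMap.injective_iff_antilipschitz (f' : ℝ × ℝ →ₗ[ℝ] E)).mp hinj
  have hK0' : (0 : ℝ) < K := hK0
  have := hf.isLittleO.def (c := 1 / (2 * K)) (by positivity)
  filter_upwards [this] with z hz hzz
  rw [hzz, sub_self, zero_sub, norm_neg] at hz
  have h1 : ‖z.1 - z.2‖ ≤ K * ‖f' (z.1 - z.2)‖ :=
    ZeroHomClass.bound_of_antilipschitz (f' : ℝ × ℝ →ₗ[ℝ] E) hK (z.1 - z.2)
  have h2 : K * ‖f' (z.1 - z.2)‖ ≤ ‖z.1 - z.2‖ / 2 := by
    calc _ ≤ K * (1 / (2 * K) * ‖z.1 - z.2‖) := by gcongr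
      _ = _ := by field_simp
  have h3 : ‖z.1 - z.2‖ = 0 := by linarith [norm_nonneg (z.1 - z.2)]
  exact sub_eq_zero.mp (norm_eq_zero.mp h3)

theorem thin {E : Type*} [NormedAddCommGroup E] [NormedSpace ℝ E] {m : ℝ × ℝ → E}
    (hm : ContDiff ℝ ∞ m) (hd : ∀ x, Function.Injective (fderiv ℝ m (x, 0)))
    (hinj : ∀ x y, |x - y| ≤ π / 2 → m (x, 0) = m (y, 0) → x = y) :
    ∃ b > 0, ∀ x ∈ Icc 0 π, ∀ y, |x - y| ≤ π / 2 → ∀ v v', |v| < b → |v'| < b →
      m (x, v) = m (y, v') → x = y ∧ v = v' := by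
  have hK : IsCompact ((Icc 0 π ×ˢ Icc (-π) (2 * π)) ∩ {z : ℝ × ℝ | |z.1 - z.2| ≤ π / 2}) :=
    (isCompact_Icc.prod isCompact_Icc).inter_right (isClosed_le (by fun_prop) continuous_const)
  have := hK.eventually_forall_of_forall_eventually (x₀ := ((0 : ℝ), (0 : ℝ)))
    (P := fun v z => m (z.1, v.1) = m (z.2, v.2) → (z.1, v.1) = (z.2, v.2)) (by
      rintro ⟨x, y⟩ ⟨-, hxy⟩
      by_cases h : x = y
      · subst h
        have h1 := locally_inj ((hm.contDiffAt (x := (x, 0))).hasStrictFDerivAt (by simp)) (hd x)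
        have h2 : Tendsto (fun z : (ℝ × ℝ) × (ℝ × ℝ) => ((z.2.1, z.1.1), (z.2.2, z.1.2)))
            (𝓝 ((0, 0), (x, x))) (𝓝 ((x, 0), (x, 0))) :=
          Continuous.tendsto' (by fun_prop) _ _ rfl
        exact h2.eventually h1
      · have h1 : m (x, 0) ≠ m (y, 0) := fun h' => h (hinj x y hxy h')
        have hc := hm.continuous
        have h2 : ∀ᶠ z : (ℝ × ℝ) × (ℝ × ℝ) in 𝓝 ((0, 0), (x, y)),
            m (z.2.1, z.1.1) - m (z.2.2, z.1.2) ≠ 0 :=
          ContinuousAt.eventually_ne (by fun_prop) (sub_ne_zero.mpr h1)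
        filter_upwards [h2] with z hz hzz
        exact absurd (sub_eq_zero.mpr hzz) hz)
  obtain ⟨b, hb, hb'⟩ := Metric.eventually_nhds_iff.mp this
  refine ⟨b, hb, fun x hx y hxy v v' hv hv' hmm => ?_⟩
  have h1 : dist (v, v') ((0 : ℝ), (0 : ℝ)) < b := by
    rw [Prod.dist_eq]
    simp [hv, hv']
  have h2 := abs_le.mp hxy
  have h3 := hb' h1 (x, y) ⟨⟨hx, ⟨by linarith [hx.1, pi_pos], by linarith [hx.2, pi_pos]⟩⟩, hxy⟩ hmm
  exact ⟨congrArg Prod.fst h3, congrArg Prod.snd h3⟩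

theorem bdd_of_periodic {f : ℝ → ℝ} (hf : Continuous f) (hp : Function.Periodic f (2 * π)) :
    ∃ C > 0, ∀ x, |f x| ≤ C := by
  obtain ⟨C, hC⟩ := (hp.isBounded_of_continuous (by positivity) hf).exists_norm_le
  exact ⟨|C| + 1, by positivity, fun x => (hC _ ⟨x, rfl⟩).trans (by linarith [le_abs_self C])⟩

/-- The odd bounded profile function. -/
noncomputable def om (b u : ℝ) : ℝ := b * u / (1 + u ^ 2)

noncomputable def om' (b u : ℝ) : ℝ := b * (1 - u ^ 2) / (1 + u ^ 2) ^ 2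

noncomputable def yy (b u : ℝ) : ℝ := √(om' b u ^ 2 + 4 * u ^ 2)

theorem om_deriv (b u : ℝ) : HasDerivAt (om b) (om' b u) u := by
  have h1 : HasDerivAt (fun u : ℝ => b * u) (b * 1) u := (hasDerivAt_id u).const_mul b
  have h2 : HasDerivAt (fun u : ℝ => 1 + u ^ 2) (2 * u) u := by
    simpa using (hasDerivAt_pow 2 u).const_add 1
  refine (h1.div h2 (by positivity)).congr_deriv ?_
  unfold om'
  congr 1
  ring

theorem om_smooth (b : ℝ) {n : WithTop ℕ∞} : ContDiff ℝ n (om b) := by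
  unfold om
  exact ContDiff.div (by fun_prop) (by fun_prop) (fun u => by positivity)

theorem om_neg (b u : ℝ) : om b (-u) = -om b u := by unfold om; ring

theorem om_abs {b : ℝ} (hb : 0 < b) (u : ℝ) : |om b u| < b := by
  unfold om
  rw [abs_div, abs_mul, abs_of_pos hb, abs_of_pos (by positivity : 0 < 1 + u ^ 2),
    div_lt_iff₀ (by positivity), ← sq_abs u]
  have : |u| < 1 + |u| ^ 2 := by nlinarith [sq_nonneg (|u| - 1)]
  nlinarith

theorem om_inj {b u v : ℝ} (hb : 0 < b) (h : om b u = om b v) (h2 : u ^ 2 = v ^ 2) : u = v := by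
  unfold om at h
  rw [h2, div_left_inj' (by positivity)] at h
  exact mul_left_cancel₀ hb.ne' h

theorem yy_sq_ge {b : ℝ} (hb : 0 < b) (hb1 : b ≤ 1) (u : ℝ) :
    (b / 4) ^ 2 ≤ om' b u ^ 2 + 4 * u ^ 2 := by
  by_cases h : 1 / 4 ≤ u ^ 2
  · nlinarith [sq_nonneg (om' b u)]
  · push Not at h
    have h1 : b / 4 ≤ om' b u := by
      unfold om'
      rw [le_div_iff₀ (by positivity)]
      have : (1 + u ^ 2) ^ 2 ≤ 2 := by nlinarith [sq_nonneg u]
      nlinarith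
    nlinarith [sq_nonneg u]

theorem yy_ge {b : ℝ} (hb : 0 < b) (hb1 : b ≤ 1) (u : ℝ) : b / 4 ≤ yy b u :=
  Real.le_sqrt_of_sq_le (yy_sq_ge hb hb1 u)

theorem yy_sq (b u : ℝ) : yy b u ^ 2 = om' b u ^ 2 + 4 * u ^ 2 :=
  Real.sq_sqrt (by positivity)

theorem yy_smooth {b : ℝ} (hb : 0 < b) (hb1 : b ≤ 1) : ContDiff ℝ ∞ (yy b) := by
  unfold yy
  refine ContDiff.sqrt ?_ (fun u => (lt_of_lt_of_le (by positivity) (yy_sq_ge hb hb1 u)).ne')
  have : ContDiff ℝ ∞ (om' b) := by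
    unfold om'
    exact ContDiff.div (by fun_prop) (by fun_prop) (fun u => by positivity)
  fun_prop

theorem yy_neg (b u : ℝ) : yy b (-u) = yy b u := by unfold yy om'; simp

theorem prim_smooth {f : ℝ → ℝ} (hf : ContDiff ℝ ∞ f) :
    ContDiff ℝ ∞ (fun u => ∫ x in (0 : ℝ)..u, f x) := by
  rw [contDiff_infty_iff_deriv]
  refine ⟨fun u => (hf.continuous.integral_hasStrictDerivAt 0 u).hasDerivAt.differentiableAt, ?_⟩
  have : deriv (fun u => ∫ x in (0 : ℝ)..u, f x) = f :=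
    funext fun u => (hf.continuous.integral_hasStrictDerivAt 0 u).hasDerivAt.deriv
  rw [this]; exact hf

end Pool.Agent.H352Z.Moeb
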